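import Mathlib
import Pool.Agent.X328.GM.Stm
import Pool.Agent.X263.FP.STEP

/-! # Project GM: the height of a value (S_STEPG) -/

set_option autoImplicit false

namespace Pool.Agent.X305.FP

open Finset Polynomial Pool.Agent.W277.UB Pool.Agent.W277.UB.PlaceData Pool.Agent.X328.FP
open Pool.Agent.X263.FP (res_ne prod_zero hQ_eq exists_S)

universe u v w

lemma res_ne_max {K : Type*} [Field K] (d : ℕ) (p q : Polynomial K)
    (h : max p.natDegree q.natDegree = d) (hd : 1 ≤ d) (hco : IsCoprime p q) :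
    resultant q p d d ≠ 0 := by
  rcases le_total p.natDegree q.natDegree with h1 | h1
  · rw [max_eq_right h1] at h
    exact res_ne d p q (h ▸ h1) h hd hco
  · rw [max_eq_left h1] at h
    have h2 := res_ne d q p (h ▸ h1) h hd hco.symm
    rw [resultant_comm]
    exact mul_ne_zero (pow_ne_zero _ (by norm_num)) h2

section

variable {k K : Type*} [Field k] [Field K] [Algebra k K]

/-- the local inequality -/
lemma loc (Q : PlaceData k K) (v : Q.Pl) (d : ℕ) (hd : 1 ≤ d) (p q : K[X]) (hp : p.natDegree ≤ d)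
    (hq : q.natDegree ≤ d) (hpq : p ≠ 0 ∨ q ≠ 0) (hR : resultant q p d d ≠ 0) (M : ℤ)
    (hpM : ∀ i, Q.G v (-M) (p.coeff i)) (hqM : ∀ i, Q.G v (-M) (q.coeff i)) (x : K)
    (hx : q.eval x ≠ 0) :
    (d : ℤ) * Q.pole v x ≤ Q.ord v (resultant q p d d) - Q.ord v (q.eval x) +
      Q.pole v (vl p q x) + (2 * d - 1) * M := by
  classical
  have hne : (p.coeffs ∪ q.coeffs).Nonempty := by
    rcases hpq with h | h
    · refine ⟨p.leadingCoeff, Finset.mem_union_left _ ?_⟩
      rw [mem_coeffs_iff]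
      exact ⟨p.natDegree, natDegree_mem_support_of_nonzero h, rfl⟩
    · refine ⟨q.leadingCoeff, Finset.mem_union_right _ ?_⟩
      rw [mem_coeffs_iff]
      exact ⟨q.natDegree, natDegree_mem_support_of_nonzero h, rfl⟩
  obtain ⟨c, hcm, hcmin⟩ := Finset.exists_min_image (p.coeffs ∪ q.coeffs) (fun x => Q.ord v x) hne
  have hcc : c ≠ 0 ∧ -M ≤ Q.ord v c := by
    rcases Finset.mem_union.mp hcm with h | h
    · rw [mem_coeffs_iff] at h
      obtain ⟨i, hi, rfl⟩ := h
      exact ⟨mem_support_iff.mp hi, hpM i (mem_support_iff.mp hi)⟩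
    · rw [mem_coeffs_iff] at h
      obtain ⟨i, hi, rfl⟩ := h
      exact ⟨mem_support_iff.mp hi, hqM i (mem_support_iff.mp hi)⟩
  obtain ⟨hc0, hcM⟩ := hcc
  have hpc : ∀ i, Q.G v (Q.ord v c) (p.coeff i) := by
    intro i hi
    exact hcmin _ (Finset.mem_union_left _ (mem_coeffs_iff.mpr ⟨i, mem_support_iff.mpr hi, rfl⟩))
  have hqc : ∀ i, Q.G v (Q.ord v c) (q.coeff i) := by
    intro i hi
    exact hcmin _ (Finset.mem_union_right _ (mem_coeffs_iff.mpr ⟨i, mem_support_iff.mpr hi, rfl⟩))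
  have h1 : Q.G v (Q.ord v (q.eval x) - Q.pole v (vl p q x)) (p.eval x) := by
    have h3 := G_mul (Q := Q) (G_self (v := v) (x := q.eval x)) (G_pole v (vl p q x))
    unfold vl at h3
    rw [mul_div_cancel₀ _ hx] at h3
    exact G_mono h3 (by unfold vl; omega)
  have h2 : Q.G v (Q.ord v (q.eval x) - Q.pole v (vl p q x)) (q.eval x) := by
    intro _
    have := pole_nonneg v (vl p q x)
    omega
  have h3 := Pool.Agent.Y784.CH.low d hd p q hp hq c hc0 hpc hqc hR x _ h1 h2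
  have hd1 : (1 : ℤ) ≤ d := by exact_mod_cast hd
  have h5 : (0 : ℤ) ≤ (2 * d - 1) * (M + Q.ord v c) := mul_nonneg (by linarith) (by linarith)
  nlinarith

/-- **STEPG** -/
theorem stepG (Q : PlaceData k K) (d : ℕ) (hd : 1 ≤ d) (p q : K[X]) (hco : IsCoprime p q)
    (hdeg : max p.natDegree q.natDegree = d) (e : Q.Pl → ℤ) (S : Finset Q.Pl)
    (heS : ∀ v, v ∉ S → e v = 0) (hpe : ∀ v i, Q.G v (-e v) (p.coeff i))
    (hqe : ∀ v i, Q.G v (-e v) (q.coeff i)) (x : K) (hx : q.eval x ≠ 0) :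
    (d : ℤ) * hQ Q x - (2 * d - 1) * ∑ v ∈ S, Q.wt v * e v ≤ hQ Q (vl p q x) := by
  classical
  have hpd : p.natDegree ≤ d := hdeg ▸ le_max_left _ _
  have hqd : q.natDegree ≤ d := hdeg ▸ le_max_right _ _
  have hR : resultant q p d d ≠ 0 := res_ne_max d p q hdeg hd hco
  have hq0 : q ≠ 0 := by
    rintro rfl
    exact hx eval_zero
  obtain ⟨T, hT⟩ := exists_S Q {x, vl p q x, resultant q p d d, q.eval x}
  have e1 : ∀ v, v ∉ T ∪ S → Q.pole v x = 0 := fun v hv =>
    (hT v (fun h => hv (Finset.mem_union_left _ h)) x (by simp)).2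
  have e2 : ∀ v, v ∉ T ∪ S → Q.pole v (vl p q x) = 0 := fun v hv =>
    (hT v (fun h => hv (Finset.mem_union_left _ h)) (vl p q x) (by simp)).2
  have e3 : ∀ v, v ∉ T ∪ S → Q.ord v (resultant q p d d) = 0 :=
    fun v hv => (hT v (fun h => hv (Finset.mem_union_left _ h)) (resultant q p d d) (by simp)).1 hR
  have e4 : ∀ v, v ∉ T ∪ S → Q.ord v (q.eval x) = 0 := fun v hv =>
    (hT v (fun h => hv (Finset.mem_union_left _ h)) (q.eval x) (by simp)).1 hx
  have s1 := hQ_eq Q x (T ∪ S) e1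
  have s2 := hQ_eq Q (vl p q x) (T ∪ S) e2
  have s3 := prod_zero Q (T ∪ S) _ hR e3
  have s4 := prod_zero Q (T ∪ S) _ hx e4
  have s5 : ∑ v ∈ T ∪ S, Q.wt v * e v = ∑ v ∈ S, Q.wt v * e v := by
    symm
    apply Finset.sum_subset Finset.subset_union_right
    intro v _ hv
    rw [heS v hv, mul_zero]
  have key : ∀ v ∈ T ∪ S, (d : ℤ) * (Q.wt v * Q.pole v x) ≤
      Q.wt v * Q.ord v (resultant q p d d) - Q.wt v * Q.ord v (q.eval x) +
        Q.wt v * Q.pole v (vl p q x) + (2 * d - 1) * (Q.wt v * e v) := by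
    intro v _
    have h := loc Q v d hd p q hpd hqd (Or.inr hq0) hR (e v) (hpe v) (hqe v) x hx
    have h2 := mul_le_mul_of_nonneg_left h (Q.wt_nonneg v)
    linarith
  have h := Finset.sum_le_sum key
  rw [Finset.sum_add_distrib, Finset.sum_add_distrib, Finset.sum_sub_distrib, ← Finset.mul_sum,
    ← Finset.mul_sum, s1, s2, s3, s4, s5] at h
  linarith

end

theorem t : Pool.Agent.X328.GM.S_STEPG.{u, v, w} := by
  intro k K _ _ _ _ Q d hd p q hco hdeg e S _ heS hpe hqe x hx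
  exact stepG Q d hd p q hco hdeg e S heS hpe hqe x hx

end Pool.Agent.X305.FP
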